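import Pool.Agent.R986.RCC4

/-!
# MP_2a19a6_pr, Q1 (positive answer): the Cheeger constant of random abelian Cayley graphs

`R986.RCC.cut Z S` is the number of edges `(g,i)` of `G_k` (joining `g` and `g + Z i`) with exactly
one endpoint in `S`; `R986.RCC.cheeger Z = (1/(2k)) * min_{1 ≤ |S| ≤ |G|/2} cut Z S / |S|`.

Proof idea.  Let `N = 2^J` be the least power of two with `|G| ≤ N^k`.  For the multiscale kernel
`F(w) = Σ_{j ≤ J} 2^{-j} (3/4)^{J-j} |1 - w^{2^j}|²` one has, by subadditivity of the edge boundary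
in the direction `2^j Z_i`, `4 cut(S) ≥ (1/|G|) Σ_ψ |f̂(ψ)|² Σ_i F(ψ(Z_i))`, while a Chernoff bound
and a union bound over all characters (grouped by the size of their image) show that with
probability at least `1 - 5 (9/10)^k` all nontrivial characters satisfy
`Σ_i N F(ψ(Z_i)) > k / 50000`.
-/

open Finset

namespace Pool.Agent.Results.MP_2a19a6_pr.CheegerRandomCayley

open R986.RCC

/-- `d(G)`: the minimal size of a generating set of `G`. -/
noncomputable def minGen (G : Type) [AddCommGroup G] : ℕ :=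
  sInf {n | ∃ s : Finset G, s.card = n ∧ AddSubgroup.closure (s : Set G) = ⊤}

/-- `Pr(Φ_*(G_k) ≤ c |G|^{-1/k})` for `Z` uniform on `G^k`. -/
noncomputable def prSmall (G : Type) [AddCommGroup G] [Fintype G] [DecidableEq G] (k : ℕ)
    (c : ℝ) : ℝ :=
  ((univ.filter (fun Z : Fin k → G =>
      cheeger Z ≤ c * (Fintype.card G : ℝ) ^ (-(1 : ℝ) / k))).card : ℝ) /
    (Fintype.card (Fin k → G) : ℝ)

/-- Quantitative form with an absolute constant, valid for all `k ≥ max(4, 2 d(G))`. -/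
theorem quantitative (G : Type) [AddCommGroup G] [Fintype G] [DecidableEq G] (k : ℕ)
    (hG : 2 ≤ Fintype.card G) (hk : 4 ≤ k) (hd : 2 * minGen G ≤ k) :
    prSmall G k (1 / 1600000) ≤ 5 * (9 / 10) ^ k := by
  classical
  have hne : {n | ∃ s : Finset G, s.card = n ∧ AddSubgroup.closure (s : Set G) = ⊤}.Nonempty :=
    ⟨_, univ, rfl, by simp⟩
  obtain ⟨s, hs1, hs2⟩ := Nat.sInf_mem hne
  change s.card = minGen G at hs1
  obtain ⟨J, hJ1, hJ2⟩ := exists_scale (Fintype.card G) k hG (by omega)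
  have hb := bad_total s hs2 J k hk (by omega) hJ1
  have hGpos : (0 : ℝ) < Fintype.card G := by exact_mod_cast (by omega : 0 < Fintype.card G)
  have hsub : univ.filter (fun Z : Fin k → G =>
      cheeger Z ≤ 1 / 1600000 * (Fintype.card G : ℝ) ^ (-(1 : ℝ) / k)) ⊆
      univ.filter (fun Z : Fin k → G => IsBad J Z) := by
    intro Z hZ
    simp only [mem_filter, mem_univ, true_and] at hZ ⊢
    by_contra hbad
    have h1 := good_cheeger (by omega) Z J hbad hG
    have hpow : (0 : ℝ) < (Fintype.card G : ℝ) ^ ((1 : ℝ) / k) := by positivity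
    have h2 : 1 / (800000 * (2 * (Fintype.card G : ℝ) ^ ((1 : ℝ) / k)))
        < 1 / (800000 * 2 ^ J) := by
      apply one_div_lt_one_div_of_lt (by positivity)
      linarith
    have h3 : (1 : ℝ) / 1600000 * (Fintype.card G : ℝ) ^ (-(1 : ℝ) / k)
        = 1 / (800000 * (2 * (Fintype.card G : ℝ) ^ ((1 : ℝ) / k))) := by
      rw [neg_div, Real.rpow_neg hGpos.le]
      field_simp
      norm_num
    linarith
  have hcardfun : (Fintype.card (Fin k → G) : ℝ) = (Fintype.card G : ℝ) ^ k := by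
    rw [Fintype.card_fun, Fintype.card_fin]
    push_cast
    rfl
  unfold prSmall
  rw [hcardfun, div_le_iff₀ (by positivity)]
  refine le_trans ?_ hb
  exact_mod_cast Finset.card_le_card hsub

/-- Q1 of MP_2a19a6_pr, with a constant `c` that does not even depend on `δ`. -/
theorem result :
    ∃ c : ℝ, 0 < c ∧ ∀ δ : ℝ, 0 < δ → δ < 1 → ∀ ε : ℝ, 0 < ε → ε < 1 → ∃ n M : ℕ,
      ∀ (G : Type) [AddCommGroup G] [Fintype G] [DecidableEq G] (k : ℕ),
        n ≤ Fintype.card G → M ≤ k → (k : ℝ) - 2 * (minGen G : ℝ) ≥ δ * k →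
        prSmall G k c ≤ ε := by
  refine ⟨1 / 1600000, by norm_num, ?_⟩
  intro δ hδ0 _ ε hε _
  obtain ⟨M0, hM0⟩ := exists_pow_lt_of_lt_one (show (0 : ℝ) < ε / 5 by positivity)
    (show (9 / 10 : ℝ) < 1 by norm_num)
  refine ⟨2, max 4 M0, ?_⟩
  intro G _ _ _ k hn hM hd
  have hk4 : 4 ≤ k := (le_max_left _ _).trans hM
  have hkM : M0 ≤ k := (le_max_right _ _).trans hM
  have hd' : 2 * minGen G ≤ k := by
    have h1 : 2 * (minGen G : ℝ) ≤ k := by
      have : 0 ≤ δ * (k : ℝ) := by positivity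
      linarith
    exact_mod_cast h1
  refine (quantitative G k hn hk4 hd').trans ?_
  have h2 : (9 / 10 : ℝ) ^ k ≤ (9 / 10) ^ M0 :=
    pow_le_pow_of_le_one (by norm_num) (by norm_num) hkM
  linarith

end Pool.Agent.Results.MP_2a19a6_pr.CheegerRandomCayley
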